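import Pool.Agent.Helper13.TR.MainDefs

/-!
# Project CWS: a homology 3-manifold has no isolated points
-/

set_option autoImplicit false

namespace Pool.Agent.Helper35.CWS

open Set Topology Pool.Agent.Helper13.TR

theorem range_sub {X : Type} [TopologicalSpace X] {T : Set X} (hT : IsClopen T) (σ : Sx X 1)
    (a b : Dl 1) (ha : σ a ∈ T) : σ b ∈ T := by
  have hpc : PreconnectedSpace (Dl 1) := by
    have : IsPreconnected (stdSimplex ℝ (Fin 2)) := (convex_stdSimplex ℝ (Fin 2)).isPreconnected
    exact isPreconnected_iff_preconnectedSpace.mp this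
  have h1 : IsClopen (σ ⁻¹' T) := hT.preimage σ.continuous
  have h2 := h1.eq_univ ⟨a, ha⟩
  have h3 : b ∈ (σ ⁻¹' T) := by rw [h2]; trivial
  exact h3

theorem ev_single {X : Type} [TopologicalSpace X] (T : Set X) (σ : Sx X 0) (h : σ (stdSimplex.vertex 0) ∈ T) (a : ℤ) :
    ev T (Finsupp.single σ a) = a := by
  unfold ev
  rw [Finsupp.linearCombination_single]
  simp [h]

theorem ev_single' {X : Type} [TopologicalSpace X] (T : Set X) (σ : Sx X 0) (h : σ (stdSimplex.vertex 0) ∉ T) (a : ℤ) :
    ev T (Finsupp.single σ a) = 0 := by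
  unfold ev
  rw [Finsupp.linearCombination_single]
  simp [h]

theorem not_isolated {X : Type} [TopologicalSpace X] [T2Space X] (x : X)
    (h : Subsingleton (RelH X 0 ({x} : Set X))) : ¬ IsOpen ({x} : Set X) := by
  intro ho
  have hT : IsClopen ({x} : Set X) := ⟨isClosed_singleton, ho⟩
  -- the chain `[x]` is a boundary
  have hc : (Finsupp.single (pt x) 1 : Ch X 0) ∈ Cyc ({x} : Set X) 0 := by
    show _ ∈ (⊤ : Submodule ℤ (Ch X 0))
    trivial
  have h0 : (Submodule.Quotient.mk ⟨_, hc⟩ : RelH X 0 {x}) = 0 := Subsingleton.elim _ _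
  rw [Submodule.Quotient.mk_eq_zero] at h0
  have h1 : (Finsupp.single (pt x) 1 : Ch X 0) ∈ Nul ({x} : Set X) 0 := h0
  have h2 : Nul ({x} : Set X) 0 ≤ LinearMap.ker (ev ({x} : Set X)) := by
    refine sup_le ?_ ?_
    · intro c hc
      rw [cin, Finsupp.supported_eq_span_single, ← SetLike.mem_coe] at hc
      refine Submodule.span_induction (p := fun c _ => c ∈ LinearMap.ker (ev ({x} : Set X))) ?_ ?_ ?_ ?_ hc
      · rintro _ ⟨σ, hσ, rfl⟩
        rw [LinearMap.mem_ker]
        apply ev_single'
        exact hσ ⟨_, rfl⟩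
      · exact Submodule.zero_mem _
      · intro a b _ _ ha hb
        exact Submodule.add_mem _ ha hb
      · intro r a _ ha
        exact Submodule.smul_mem _ _ ha
    · rintro _ ⟨c, rfl⟩
      rw [LinearMap.mem_ker]
      induction c using Finsupp.induction_linear with
      | zero => simp
      | add f g hf hg => rw [map_add, map_add, hf, hg, add_zero]
      | single σ r =>
        have : (Finsupp.single σ r : Ch X 1) = r • Finsupp.single σ 1 := by simp
        rw [this, map_smul, map_smul]
        have h3 : ev ({x} : Set X) (bd 0 (Finsupp.single σ (1:ℤ))) = 0 := by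
          unfold bd
          rw [Finsupp.linearCombination_single, one_smul, Fin.sum_univ_two, map_add, map_smul, map_smul]
          by_cases hx : σ (stdSimplex.vertex 0) ∈ ({x} : Set X)
          · rw [ev_single _ _ (range_sub hT σ _ _ hx), ev_single _ _ (range_sub hT σ _ _ hx)]
            simp
          · have hn : ∀ b, σ b ∉ ({x} : Set X) := fun b hb => hx (range_sub hT σ _ _ hb)
            rw [ev_single' _ _ (hn _), ev_single' _ _ (hn _)]
            simp
        rw [h3, smul_zero]
  have h3 := h2 h1
  rw [LinearMap.mem_ker, ev_single _ _ (by simp [pt])] at h3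
  exact one_ne_zero h3

end Pool.Agent.Helper35.CWS
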