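import Mathlib

/-!
# Project CWS (MP_a45945_gt): every non-isolated point of a locally compact CW complex is moved by
a local semiflow.  Definitions and statements.

Idea: flow inside the lowest cell at the point (out of a vertex: along one cell attached at the
vertex); in every higher cell flow radially outwards until the frontier is reached, and then follow
the flow of the part already constructed.  Everything happens in a small neighbourhood `V` of the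
point which meets only finitely many cells, and the cells are attached one by one.
-/

set_option autoImplicit false

namespace Pool.Agent.Helper35.CWS

open Set Topology Metric

/-- `Ψ` is a local semiflow of the set `A` on `N ⊆ A` for the times `0 ≤ s ≤ ε`. -/
structure SF {Y : Type} [TopologicalSpace Y] (A N : Set Y) (ε : ℝ) (Ψ : ℝ → Y → Y) : Prop where
  sub : N ⊆ A
  pos : 0 < ε
  cont : ContinuousOn (fun p : ℝ × Y => Ψ p.1 p.2) (Icc 0 ε ×ˢ N)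
  mem : ∀ y ∈ N, ∀ s ∈ Icc (0 : ℝ) ε, Ψ s y ∈ A
  zero : ∀ y ∈ N, Ψ 0 y = y
  add : ∀ y ∈ N, ∀ s s' : ℝ, 0 ≤ s → 0 ≤ s' → s + s' ≤ ε → Ψ s' y ∈ N → Ψ (s + s') y = Ψ s (Ψ s' y)

/-- EXC.  Extension over one cell: the map on the cell.  `N` is a set on which `Ψ` is defined; `G` is the set of the
points `z` of the closed ball (sup norm) with `1/2 < ‖z‖` and `Q (‖z‖⁻¹ • z) ∈ N`; `g (s, z)` is `Q` of the point
reached by moving radially outwards with speed one, and after the sphere is reached, it is given by `Ψ`.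
PROOF.  On `‖z‖ + s ≤ 1` the first formula is continuous (`‖z‖ > 1/2`, and the point `((‖z‖ + s) * ‖z‖⁻¹) • z` lies in the
closed ball); on `‖z‖ + s ≥ 1` the second is: `s - (1 - ‖z‖) ∈ [0, ε]`, and `(s - (1 - ‖z‖), Q (‖z‖⁻¹ • z)) ∈ Icc 0 ε ×ˢ N`
(`hc`).  Both sets are relatively closed in `Icc 0 ε ×ˢ G`, the formulas agree on the intersection (`Ψ 0 y = y`).
Use `ContinuousOn.if'` or the pasting lemma by `ContinuousWithinAt` on a union of two relatively closed sets. -/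
def StEXC : Prop := ∀ (Y : Type) [TopologicalSpace Y] (n : ℕ) (N : Set Y) (Q : (Fin n → ℝ) → Y) (ε : ℝ) (Ψ : ℝ → Y → Y),
  ContinuousOn Q (closedBall 0 1) → ContinuousOn (fun p : ℝ × Y => Ψ p.1 p.2) (Icc 0 ε ×ˢ N) → (∀ y ∈ N, Ψ 0 y = y) →
  ContinuousOn (fun p : ℝ × (Fin n → ℝ) => if ‖p.2‖ + p.1 ≤ 1 then Q (((‖p.2‖ + p.1) * ‖p.2‖⁻¹) • p.2) else
    Ψ (p.1 - (1 - ‖p.2‖)) (Q (‖p.2‖⁻¹ • p.2))) (Icc 0 ε ×ˢ {z | z ∈ closedBall (0 : Fin n → ℝ) 1 ∧ 1 / 2 < ‖z‖ ∧ Q (‖z‖⁻¹ • z) ∈ N})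

/-- QUO.  Passing to the quotient: `Q` is continuous on a compact set `K`, `G ⊆ K` is saturated (`Q z = Q z'`, `z ∈ G`, `z' ∈ K`
implies `z' ∈ G`), and `f (s, Q z) = g (s, z)` on `S × G` with `g` continuous on `S ×ˢ G`.  Then `f` is continuous on
`S ×ˢ (Q '' G)`.
PROOF.  Ultrafilters (or nets): let `(s₀, y₀)` be in the set, `O` a neighbourhood of `f (s₀, y₀)`.  If `𝒰` is an ultrafilter
`≤ 𝓝[S ×ˢ (Q '' G)] (s₀, y₀)`, choose (`Q` restricted to `G` has a section `σ` on `Q '' G`) the points `z = σ y ∈ G ⊆ K`; the image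
ultrafilter converges to some `z₁ ∈ K` (compactness), `Q z₁ = y₀` by continuity of `Q` on `K` and `T2`, so `z₁ ∈ G` by
saturation, and `f (s, y) = g (s, σ y) → g (s₀, z₁) = f (s₀, y₀)`.  Use `tendsto_iff_ultrafilter`, `IsCompact.ultrafilter_le_nhds`. -/
def StQUO : Prop := ∀ (Y Z T : Type) [TopologicalSpace Y] [T2Space Y] [TopologicalSpace Z] [TopologicalSpace T] (K G : Set Z) (S : Set ℝ) (Q : Z → Y)
  (f : ℝ × Y → T) (g : ℝ × Z → T), IsCompact K → G ⊆ K → ContinuousOn Q K → (∀ z ∈ G, ∀ z' ∈ K, Q z' = Q z → z' ∈ G) →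
  ContinuousOn g (S ×ˢ G) → (∀ s ∈ S, ∀ z ∈ G, f (s, Q z) = g (s, z)) → ContinuousOn f (S ×ˢ (Q '' G))

/-- EXT.  Extension of a local semiflow over one cell.  Uses `StEXC`, `StQUO`.
PROOF.  `N := A ∩ W`, `cB := closedBall 0 1`, `G := {z ∈ cB | 1/2 < ‖z‖ ∧ Q (‖z‖⁻¹ • z) ∈ N}`.  For `z ∈ cB ∖ {0}` the point `‖z‖⁻¹ • z` is in the
sphere, and for a point `w` of the sphere `Q w ∈ N` iff `Q w ∈ W` (as `W ⊆ V` and `Q w ∈ V → Q w ∈ A`); so `G` is relatively open in `cB`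
(`z ↦ ‖z‖⁻¹ • z` is continuous off `0`), and `cB ∖ G` is compact.  `W' := V ∖ ((A ∖ W) ∪ Q '' (cB ∖ G))`, open (`A ∖ W` closed, the image compact hence
closed).  With `A' := A ∪ Q '' cB`: `A' ∩ W' = (N ∪ Q '' G) ∩ V` [a point `Q z`, `z ∈ cB ∖ G`, is not in `N ∪ Q '' G`: `z ∈ ball`: `Q z ∉ A`, and `Q z = Q z'` with
`z' ∈ G` gives `z' ∉ sphere`, so `z' ∈ ball`, `z' = z`; `z ∈ sphere`, `Q z ∈ N` means `z ∈ G` (`‖z‖ = 1`); `Q z = Q z'`, `z' ∈ G`, forces `z' ∈ sphere`, so `Q z = Q z' ∈ N` again, `z ∈ G`;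
and points of `N` are not in `A ∖ W`; points `Q z ∈ A`, `z ∈ G` have `z ∈ sphere`, so `Q z ∈ N`].  In particular `A' ∩ W' ∩ A = N` (`N ⊆ W ⊆ V`).
`Ψ' s y := Ψ s y` if `y ∈ A`, and otherwise, if `y = Q z` with `z ∈ ball` (unique), `Ψ' s y := g (s, z)`, the map of `StEXC`.
For `z ∈ G`, `s ∈ [0, ε]`: `Ψ' s (Q z) = g (s, z)` (also for `z ∈ sphere`: then `Q z ∈ N`, `g (s, z) = Ψ s (Q z)`; for `s = 0` use `Ψ 0 = id`).
Continuity on `Icc 0 ε ×ˢ (A' ∩ W')`: the set is the union of its parts in `A` (there `Ψ' = Ψ`, continuous) and in `Q '' G` (`StQUO` with `K = cB`; `G`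
is saturated by the above); both parts are relatively closed (`A` closed; `A' ∩ W' ∩ Q '' cB = Q '' G ∩ V`, `Q '' cB` compact); paste.
`mem`: clear (`((‖z‖ + s) * ‖z‖⁻¹) • z ∈ cB`, and `Ψ _ (Q _) ∈ A`).  `add`: for `y ∈ N`: `Ψ' s' y = Ψ s' y ∈ A`, so it is in `N` if it is in `A' ∩ W'`, use `add` of `Ψ`.
For `y = Q z`, `z ∈ G ∩ ball`, `r := ‖z‖`, `u := ‖z‖⁻¹ • z`: if `r + s' < 1` then `Ψ' s' y = Q ((r + s') u)`, a point of the open cell with norm `r + s'` and the same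
direction `u`, and the law holds by the formulas (`(r + s') + s = r + (s + s')`, and `s + s' - (1 - r) = s - (1 - (r + s'))`); if `r + s' ≥ 1` then
`Ψ' s' y = Ψ (s' - (1 - r)) (Q u)` is in `A`, so in `N`, and `Ψ' s` of it is `Ψ s` of it, equal to `Ψ (s + s' - (1 - r)) (Q u)` by `add` of `Ψ` at `Q u ∈ N` (for `s + s' = 1 - r`, i.e.
`s = 0`, use `Ψ 0 = id`). -/
def StEXT : Prop := ∀ (Y : Type) [TopologicalSpace Y] [T2Space Y] (n : ℕ) (A V W : Set Y) (Q : (Fin n → ℝ) → Y) (ε : ℝ) (Ψ : ℝ → Y → Y),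
  IsClosed A → IsOpen V → IsOpen W → W ⊆ V → ContinuousOn Q (closedBall 0 1) → InjOn Q (ball 0 1) →
  (∀ z ∈ ball (0 : Fin n → ℝ) 1, Q z ∉ A) → (∀ z ∈ ball (0 : Fin n → ℝ) 1, ∀ w ∈ sphere (0 : Fin n → ℝ) 1, Q z ≠ Q w) →
  (∀ w ∈ sphere (0 : Fin n → ℝ) 1, Q w ∈ V → Q w ∈ A) → SF A (A ∩ W) ε Ψ →
  ∃ (W' : Set Y) (Ψ' : ℝ → Y → Y), IsOpen W' ∧ W' ⊆ V ∧ A ∩ W ⊆ W' ∧
    SF (A ∪ Q '' closedBall 0 1) ((A ∪ Q '' closedBall 0 1) ∩ W') ε Ψ' ∧ ∀ y ∈ A ∩ W, ∀ s ∈ Icc (0 : ℝ) ε, Ψ' s y = Ψ s y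

/-- INI.  Translations in a chart.
PROOF.  `E` has a continuous inverse on `E '' K` (compact to Hausdorff): `σ := invFunOn E K`, `ContinuousOn σ (E '' K)` [closed subsets of `K` are compact, their images closed; or
ultrafilters as in `StQUO`].  `Ψ s y := E (σ y + s • v)`.  For `y = E w`, `w ∈ B`: `σ y = w`.  All points of `A ∩ W` are such.  `add`: `Ψ s' y = E (w + s' • v) ∈ A ∩ W ⊆ E '' B`, so
`w + s' • v ∈ B` by injectivity on `K`, `σ` of it is `w + s' • v`.  Last claim: injectivity on `K`, `s • v ≠ 0`. -/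
def StINI : Prop := ∀ (Y : Type) [TopologicalSpace Y] [T2Space Y] (m : ℕ) (A W : Set Y) (E : (Fin m → ℝ) → Y) (K B : Set (Fin m → ℝ))
  (v : Fin m → ℝ) (ε : ℝ), 0 < ε → IsCompact K → ContinuousOn E K → InjOn E K → E '' K ⊆ A → B ⊆ K → A ∩ W ⊆ E '' B → v ≠ 0 →
  (∀ w ∈ B, ∀ s ∈ Icc (0 : ℝ) ε, w + s • v ∈ K) →
  ∃ Ψ : ℝ → Y → Y, SF A (A ∩ W) ε Ψ ∧ ∀ y ∈ A ∩ W, ∀ s ∈ Ioc (0 : ℝ) ε, Ψ s y ≠ y

/-- the data of one closed cell `Q : closedBall 0 1 → Y` -/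
structure Cell {Y : Type} [TopologicalSpace Y] (n : ℕ) (Q : (Fin n → ℝ) → Y) : Prop where
  cont : ContinuousOn Q (closedBall 0 1)
  inj : InjOn Q (ball 0 1)
  ne : ∀ z ∈ ball (0 : Fin n → ℝ) 1, ∀ w ∈ sphere (0 : Fin n → ℝ) 1, Q z ≠ Q w

/-- The conclusion of the three initial cases: a local semiflow of `A` near `y₀` inside `V` which moves `y₀`. -/
def Start {Y : Type} [TopologicalSpace Y] (A V : Set Y) (y₀ : Y) : Prop :=
  ∃ (W : Set Y) (ε : ℝ) (Ψ : ℝ → Y → Y), IsOpen W ∧ W ⊆ V ∧ y₀ ∈ W ∧ SF A (A ∩ W) ε Ψ ∧ ∀ s ∈ Ioc (0 : ℝ) ε, Ψ s y₀ ≠ y₀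

/-- CHA.  Start at an interior point of a cell of positive dimension.  Uses `StINI`.
PROOF.  `ρ := (1 - ‖z₀‖) / 2 > 0`, `K := closedBall z₀ ρ ⊆ ball 0 1`, `B := ball z₀ (ρ / 2)`, `v := fun _ => 1` (`‖v‖ = 1`, `m > 0`), `ε := ρ / 2`, `E := Q`, `A := Q '' closedBall 0 1`,
`W := V ∖ Q '' (closedBall 0 1 ∖ B)` (the image is compact, so closed).  `A ∩ W ⊆ Q '' B` clear.  `Q z₀ ∈ W`: if `Q z₀ = Q w` with `w ∈ closedBall 0 1`, then
`w ∉ sphere` (`Cell.ne`), so `w ∈ ball`, `w = z₀ ∈ B`. -/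
def StCHA : Prop := ∀ (Y : Type) [TopologicalSpace Y] [T2Space Y] (m : ℕ) (Q : (Fin m → ℝ) → Y) (z₀ : Fin m → ℝ) (V : Set Y),
  0 < m → Cell m Q → z₀ ∈ ball (0 : Fin m → ℝ) 1 → IsOpen V → Q z₀ ∈ V → Start (Q '' closedBall 0 1) V (Q z₀)

/-- CHB.  Start at a vertex to which a cell is attached by a constant map.  Uses `StINI`.
PROOF.  `E w := Q (((1 - ‖w‖) * ‖w‖⁻¹) • w)` for `w ≠ 0`, `E 0 := y₀`, on `K := closedBall 0 (1/2)`; `z = ((1 - ‖w‖) * ‖w‖⁻¹) • w` has norm `1 - ‖w‖ ∈ [1/2, 1)` and the direction of `w`, so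
`E` is injective on `K` (`y₀ ∉ Q '' ball` for `w = 0`).  Continuity at `w ≠ 0` clear; at `0`: for an open `O ∋ y₀` the set `closedBall ∖ Q⁻¹ O` is compact and
disjoint from the sphere, so its norms are `≤ 1 - δ` (if it is nonempty, the norm attains a maximum `< 1`), hence `E w ∈ O` for `‖w‖ < δ`.
`B := ball 0 (1/4)`, `v := fun _ => 1`, `ε := 1/4`, `A := Q '' closedBall 0 1`, `W := V ∖ Q '' {z | ‖z‖ ≤ 3/4}`.  `A ∩ W ⊆ E '' B`: `y = Q z`, `3/4 < ‖z‖ ≤ 1`; if `‖z‖ = 1`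
then `y = y₀ = E 0`, otherwise `y = E w` with `w = ((1 - ‖z‖) * ‖z‖⁻¹) • z`, `‖w‖ = 1 - ‖z‖ < 1/4`.  `E '' K ⊆ A`: clear (`y₀ = Q` of a point of the sphere, nonempty as `m > 0`). -/
def StCHB : Prop := ∀ (Y : Type) [TopologicalSpace Y] [T2Space Y] (m : ℕ) (Q : (Fin m → ℝ) → Y) (y₀ : Y) (V : Set Y),
  0 < m → Cell m Q → (∀ w ∈ sphere (0 : Fin m → ℝ) 1, Q w = y₀) → IsOpen V → y₀ ∈ V → Start (Q '' closedBall 0 1) V y₀

/-- CHC.  Start at a vertex which is one of the two different end points of a 1-cell.  Uses `StINI`.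
PROOF.  `σ 0 = ±1`; `E w := Q ((1 - w 0) • σ)` on `K := {w | 0 ≤ w 0 ≤ 1/2}` (compact, in `Fin 1 → ℝ`), injective (`(1 - w 0) • σ` is in the ball for `w 0 > 0`, and `Q σ ∉ Q '' ball`).
`B := {w | 0 ≤ w 0 < 1/4}`, `v := fun _ => 1`, `ε := 1/4`, `A := Q '' closedBall 0 1`, `W := V ∖ Q '' {z | ‖z‖ ≤ 1 ∧ z 0 * σ 0 ≤ 3/4}` (compact image).
Every `z` of the closed ball is `z = (z 0 * σ 0) • σ`; if `z 0 * σ 0 > 3/4` then `Q z = E w` with `w 0 = 1 - z 0 * σ 0 < 1/4`.  `Q σ ∈ W`: `Q σ = Q z`, `z 0 * σ 0 ≤ 3/4`: `z ∉ ball` by `Cell.ne`, so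
`z = -σ`, excluded by hypothesis. -/
def StCHC : Prop := ∀ (Y : Type) [TopologicalSpace Y] [T2Space Y] (Q : (Fin 1 → ℝ) → Y) (σ : Fin 1 → ℝ) (V : Set Y),
  Cell 1 Q → σ ∈ sphere (0 : Fin 1 → ℝ) 1 → Q (-σ) ≠ Q σ → IsOpen V → Q σ ∈ V → Start (Q '' closedBall 0 1) V (Q σ)

/-- STAR.  A small neighbourhood in a locally compact (relative) CW complex.
PROOF.  Let `K` be a compact neighbourhood of `y₀`.  Only finitely many open cells meet `K`: otherwise choose an infinite set of cells meeting `K` and a point `t_c ∈ openCell c ∩ K` for each of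
them; `T` the set of these points, infinite (open cells are disjoint).  Every subset `S` of `T` is closed: `RelCWComplex.closed`; `S ∩ D = ∅` (open cells are disjoint from `D`), and a
closed cell is contained in `D` and finitely many open cells (`RelCWComplex.cellFrontier_subset_finite_openCell`, `cellFrontier_union_openCell_eq_closedCell`), each of which contains at most
one point of `S`, so `S ∩ closedCell` is finite, hence closed.  An infinite subset of the compact `K` has an accumulation point `x`, but the complement of the closed set `T ∖ {x}` is a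
neighbourhood of `x`: contradiction.  `F₀`: the finite set of the cells whose open cell meets `K`.  `V := interior K ∖ D ∖ ⋃_{c ∈ F₀, y₀ ∉ closedCell c} closedCell c`, `F := {c ∈ F₀ | y₀ ∈ closedCell c}`.
A point `y ∈ V` is in some open cell `c` (`RelCWComplex.union_iUnion_openCell_eq_complex`), `c ∈ F₀`, and `y₀ ∈ closedCell c` since otherwise `y ∉ closedCell c ⊇ openCell c`. -/
def StSTAR : Prop := ∀ (Y : Type) [TopologicalSpace Y] [T2Space Y] [LocallyCompactSpace Y] (D : Set Y) [RelCWComplex (univ : Set Y) D] (y₀ : Y), y₀ ∉ D →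
  ∃ (V : Set Y) (F : Finset (Σ n, RelCWComplex.cell (univ : Set Y) n)), IsOpen V ∧ y₀ ∈ V ∧ Disjoint V D ∧
    (∀ y ∈ V, ∃ c ∈ F, y ∈ RelCWComplex.openCell c.1 c.2) ∧ ∀ c ∈ F, y₀ ∈ RelCWComplex.closedCell c.1 c.2

/-- IND.  Attaching finitely many cells.  Uses `StEXT`.
PROOF.  Induction on the number of cells of `F ∖ P`, for all `P, A, W, Ψ`.  If `F ⊆ P`, then `V ⊆ A`, so `A ∩ W = W` and `W' := W`, `Φ := Ψ`.  Otherwise let `c ∈ F ∖ P` be of minimal dimension.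
`StEXT` with `Q := RelCWComplex.map c.1 c.2` (continuity: `RelCWComplex.continuousOn`; injectivity on the ball: the partial equivalence has source `ball 0 1`, `RelCWComplex.source_eq`;
`Q z ≠ Q w` for `z ∈ ball`, `w ∈ sphere`: `RelCWComplex.cellFrontier_subset_skeletonLT` and `RelCWComplex.disjoint_skeletonLT_openCell`).  Frontier condition: `w ∈ sphere`, `Q w ∈ V`: `Q w` is in
`openCell c'` with `c' ∈ F`; `Q w ∈ cellFrontier c ⊆ skeletonLT c.1`, so `c'.1 < c.1` (again `disjoint_skeletonLT_openCell`), so `c' ∈ P` by minimality, and `Q w ∈ A`.  `A' := A ∪ closedCell c` (closed),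
`P' := P ∪ {c}`; for `c'' ∈ F ∖ P'`: `openCell c''` is disjoint from `A`, from `openCell c` (`c'' ≠ c`), and from `cellFrontier c ⊆ skeletonLT c.1` because `c.1 ≤ c''.1`.  Apply the induction hypothesis
with `W'`; the final `W''` contains `A' ∩ W' ⊇ A ∩ W`, and the final flow agrees with `Ψ'` on `A' ∩ W'`, so with `Ψ` on `A ∩ W`. -/
def StIND : Prop := ∀ (Y : Type) [TopologicalSpace Y] [T2Space Y] (D : Set Y) [RelCWComplex (univ : Set Y) D] (V : Set Y)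
  (F P : Finset (Σ n, RelCWComplex.cell (univ : Set Y) n)) (A W : Set Y) (ε : ℝ) (Ψ : ℝ → Y → Y), IsOpen V →
  (∀ y ∈ V, ∃ c ∈ F, y ∈ RelCWComplex.openCell c.1 c.2) → P ⊆ F → IsClosed A → IsOpen W → W ⊆ V →
  (∀ c ∈ P, RelCWComplex.openCell c.1 c.2 ⊆ A) → (∀ c ∈ F, c ∉ P → Disjoint (RelCWComplex.openCell c.1 c.2) A) → SF A (A ∩ W) ε Ψ →
  ∃ (W' : Set Y) (Φ : ℝ → Y → Y), IsOpen W' ∧ A ∩ W ⊆ W' ∧ SF univ W' ε Φ ∧ ∀ y ∈ A ∩ W, ∀ s ∈ Icc (0 : ℝ) ε, Φ s y = Ψ s y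

/-- MOV.  Every non-isolated point of a locally compact relative CW complex off the base is moved by a local semiflow.  Uses `StSTAR`, `StIND`, `StCHA`, `StCHB`, `StCHC`.
PROOF.  `V, F` from `StSTAR`; `y₀ ∈ openCell c₀`, `c₀ ∈ F`.  For `c ∈ F`, `c ≠ c₀`: `y₀ ∈ closedCell c`, `y₀ ∉ openCell c`, so `y₀ ∈ cellFrontier c ⊆ skeletonLT c.1` and `c₀.1 < c.1` (`disjoint_skeletonLT_openCell`).
Case `c₀.1 > 0`: `StCHA` with `Q = map c₀`, `z₀` with `Q z₀ = y₀`; `A = closedCell c₀`, `P = {c₀}`; for `c ∈ F ∖ P` the open cell is disjoint from `closedCell c₀` as `c₀.1 < c.1`.  `StIND`.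
Case `c₀.1 = 0`: `openCell c₀ = {y₀}`.  `F ≠ {c₀}`, otherwise `V ⊆ {y₀}` and `{y₀}` is open.  Let `c₁ ∈ F ∖ {c₀}` be of minimal dimension `m ≥ 1`, `Q = map c₁`, `A = closedCell c₁`, `P = {c₀, c₁}`
(`openCell c₀ = {y₀} ⊆ closedCell c₁`); the open cells of `F ∖ P` have dimension `≥ m` and are disjoint from `closedCell c₁`.  For `w ∈ sphere` with `Q w ∈ V`: `Q w ∈ openCell c'`, `c' ∈ F`, `c'.1 < m`, so
`c' = c₀` and `Q w = y₀`.  There is `w₁ ∈ sphere` with `Q w₁ = y₀`.  If `m ≥ 2`, the sphere is connected (`isConnected_sphere`) and `{w ∈ sphere | Q w = y₀} = {w ∈ sphere | Q w ∈ V}` is clopen in it and nonempty, so `Q = y₀` on the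
sphere: `StCHB`.  If `m = 1`, the sphere is `{w₁, -w₁}`: if `Q (-w₁) = y₀` then `StCHB`, otherwise `StCHC`.  Then `StIND`. -/
def StMOV : Prop := ∀ (Y : Type) [TopologicalSpace Y] [T2Space Y] [LocallyCompactSpace Y] (D : Set Y) [RelCWComplex (univ : Set Y) D] (y₀ : Y), y₀ ∉ D → ¬ IsOpen ({y₀} : Set Y) →
  ∃ (W : Set Y) (ε : ℝ) (Φ : ℝ → Y → Y), IsOpen W ∧ y₀ ∈ W ∧ SF univ W ε Φ ∧ ∀ s ∈ Ioc (0 : ℝ) ε, Φ s y₀ ≠ y₀

/-- TRA.  Transport of a local semiflow along an open embedding of an open subset.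
PROOF.  `f : U → Y` open embedding, `U ⊆ X` open, `x ∈ U`, `Φ` a local semiflow of `Y` on `W ∋ f x`.  `range f ∩ W` is open and contains `Φ 0 (f x)`; by continuity of `Φ` at `(0, f x)` (within `Icc 0 ε ×ˢ W`) there are
`0 < δ ≤ ε` and an open `W₀ ∋ f x`, `W₀ ⊆ W ∩ range f`, with `Φ s y ∈ range f` for `s ∈ [0, δ]`, `y ∈ W₀`.  `N := {x' | ∃ h : x' ∈ U, f ⟨x', h⟩ ∈ W₀}` is open.  `Θ s x' := f⁻¹ (Φ s (f x'))` for `x' ∈ N` (choose a preimage in `U`).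
Continuity: `f⁻¹` is continuous on the open set `range f` (open embedding).  The law: `Θ s' x' ∈ N` means `Φ s' (f x') ∈ W₀ ⊆ W`. -/
def StTRA : Prop := ∀ (X Y : Type) [TopologicalSpace X] [TopologicalSpace Y] (U : Set X) (f : ↥U → Y) (x : X) (hx : x ∈ U) (W : Set Y) (ε : ℝ) (Φ : ℝ → Y → Y),
  IsOpen U → IsOpenEmbedding f → IsOpen W → f ⟨x, hx⟩ ∈ W → SF univ W ε Φ → (∀ s ∈ Ioc (0 : ℝ) ε, Φ s (f ⟨x, hx⟩) ≠ f ⟨x, hx⟩) →
  ∃ (N : Set X) (δ : ℝ) (Θ : ℝ → X → X), IsOpen N ∧ x ∈ N ∧ SF univ N δ Θ ∧ ∀ s ∈ Ioc (0 : ℝ) δ, Θ s x ≠ x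

end Pool.Agent.Helper35.CWS
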