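import Pool.Agent.Helper58.SF.Main
import Pool.Agent.Helper35.CWS.StA
import Pool.Agent.Helper35.CWS.Iso

/-!
# Project CWS: the theorem for points with a CW neighbourhood, from the statements
-/

set_option autoImplicit false

namespace Pool.Agent.Helper35.CWS

open Set Topology Pool.Agent.Helper13.TR

/-- a point with a CW neighbourhood has a Euclidean neighbourhood -/
theorem asm_local (hMOV : StMOV) (hTRA : StTRA) (X : Type) [TopologicalSpace X] [TopologicalSpace.MetrizableSpace X]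
    [LocallyCompactSpace X] (hlc : LocContr X) (hm : IsHomology3Manifold X) (ho : LocallyOrientable X)
    (x : X) (Y : Type) [TopologicalSpace Y] [T2Space Y] [LocallyCompactSpace Y] (D : Set Y)
    [RelCWComplex (univ : Set Y) D] (U : Set X) (hx : x ∈ U) (f : ↥U → Y) (hU : IsOpen U)
    (hf : IsOpenEmbedding f) (hD : f ⟨x, hx⟩ ∉ D) :
    ∃ U : Set X, IsOpen U ∧ x ∈ U ∧ ∃ f : ↥U → EuclideanSpace ℝ (Fin 3), IsOpenEmbedding f := by
  have hni : ¬ IsOpen ({f ⟨x, hx⟩} : Set Y) := by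
    intro ho
    have h1 : IsOpen (f ⁻¹' {f ⟨x, hx⟩}) := ho.preimage hf.continuous
    have h2 : f ⁻¹' {f ⟨x, hx⟩} = {⟨x, hx⟩} := by
      ext y
      simp only [mem_preimage, mem_singleton_iff]
      exact hf.injective.eq_iff
    rw [h2] at h1
    have h3 : IsOpen ((Subtype.val : ↥U → X) '' {⟨x, hx⟩}) := hU.isOpenMap_subtype_val _ h1
    rw [image_singleton] at h3
    exact not_isolated x ((hm x).1 0 (by norm_num)) h3
  obtain ⟨W, ε, Φ, hW, hyW, hSF, hne⟩ := hMOV Y D (f ⟨x, hx⟩) hD hni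
  obtain ⟨N, δ, Θ, hN, hxN, hSF', hne'⟩ := hTRA X Y U f x hx W ε Φ hU hf hW hyW hSF hne
  exact Pool.Agent.Helper58.SF.main_local X hlc hm ho x N δ Θ hN hxN hSF'.pos hSF'.cont hSF'.zero hSF'.add
    ⟨δ, hSF'.pos.le, le_refl _, hne' δ ⟨hSF'.pos, le_refl _⟩⟩

end Pool.Agent.Helper35.CWS
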