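import Pool.Agent.Helper35.CWS.StB
import Pool.Agent.Helper13.TW.Asm

/-!
# Project CWS, part C (MP_a45945_gt): the base of a cone neighbourhood is a surface
-/

set_option autoImplicit false

namespace Pool.Agent.Helper35.CWS

open Set Topology Metric Pool.Agent.Helper13.TR

/-- CMN.  If `X` is (oriented) homology 3-manifold and `L × (0, 1)` is homeomorphic to an open subset of `X`, then `L` is locally a disc: through every point of `L` there is an embedded closed disc whose open disc is open in `L`.
PROOF.  As the end of the proof of `StFN3` (statement in `Pool/Agent/Helper13/TW/StF.lean`, proof in `Pool/Agent/Helper76/TW/M_FN3.lean`): `(0, 1) ≃ₜ ℝ`, so `↥O ≃ₜ ℝ × L`; `↥O` is locally path connected, `HM ↥O` (`aOPN`), `LH1 ↥O`; `L` is metrizable (it embeds in `↥O`), so `L` is locally path connected and `LH1 L` (`Pool.Agent.Helper13.TW.aTR1`),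
`HM (ℝ × L)` (`aHOM`), `HM2 L` (`Pool.Agent.Helper13.TW.aDSC`), and `Pool.Agent.Helper13.TW.aFIN2` gives an open `U ∋ l` and an open embedding `f : ↥U → ℂ`.  Choose a closed ball around `f l` in the range of `f`; `d w := f⁻¹ (f l + ρ w)`. -/
def StCMN : Prop := ∀ (X : Type) [TopologicalSpace X] [TopologicalSpace.MetrizableSpace X] [LocallyCompactSpace X] [LocallyPathConnectedSpace X],
  HM X → LH1 X → ∀ (L : Type) [TopologicalSpace L] (O : Set X) (_ : ↥O ≃ₜ L × ↥(Ioo (0 : ℝ) 1)), IsOpen O → ∀ l : L,
  ∃ d : ℂ → L, d 0 = l ∧ ContinuousOn d (closedBall 0 1) ∧ InjOn d (closedBall 0 1) ∧ IsOpen (d '' ball 0 1)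

end Pool.Agent.Helper35.CWS
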