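import Pool.Agent.Helper35.CWS.Main
import Pool.Agent.Helper35.CWS.StC

/-!
# Project CWS, part B: assembly from the statements
-/

set_option autoImplicit false

namespace Pool.Agent.Helper35.CWS

open Set Topology Pool.Agent.Helper13.TR

/-- from a local semiflow of the subspace `S` to one on the set `S` -/
theorem sf_of_sub {X : Type} [TopologicalSpace X] (S : Set X) (N : Set ↥S) (ε : ℝ) (Φ : ℝ → ↥S → ↥S)
    (x : ↥S) (hN : IsOpen N) (hx : x ∈ N) (h : SF univ N ε Φ) :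
    ∃ (W : Set X) (Ψ : ℝ → X → X), IsOpen W ∧ x.1 ∈ W ∧ SF S (S ∩ W) ε Ψ ∧ ∀ s, Ψ s x.1 = (Φ s x).1 := by
  classical
  obtain ⟨W, hW, hWN⟩ := isOpen_induced_iff.mp hN
  have hin : ∀ y : X, ∀ hy : y ∈ S, y ∈ W → (⟨y, hy⟩ : ↥S) ∈ N := fun y hy hyW => by
    rw [← hWN]; exact hyW
  have hout : ∀ y : X, ∀ hy : y ∈ S, (⟨y, hy⟩ : ↥S) ∈ N → y ∈ W := fun y hy hyN => by
    rw [← hWN] at hyN; exact hyN
  set Ψ : ℝ → X → X := fun s y => if hy : y ∈ S then (Φ s ⟨y, hy⟩).1 else y with hΨ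
  have hΨS : ∀ s y, ∀ hy : y ∈ S, Ψ s y = (Φ s ⟨y, hy⟩).1 := fun s y hy => by
    simp only [hΨ]; rw [dif_pos hy]
  refine ⟨W, Ψ, hW, hout x.1 x.2 hx, ⟨inter_subset_left, h.pos, ?_, ?_, ?_, ?_⟩, fun s => hΨS s x.1 x.2⟩
  · -- continuity: the set is the image of `Icc × N` under the embedding
    have hemb : IsEmbedding (fun p : ℝ × ↥S => ((p.1, p.2.1) : ℝ × X)) :=
      IsEmbedding.id.prodMap IsEmbedding.subtypeVal
    have hset : (Icc 0 ε ×ˢ (S ∩ W) : Set (ℝ × X)) = (fun p : ℝ × ↥S => ((p.1, p.2.1) : ℝ × X)) '' (Icc 0 ε ×ˢ N) := by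
      ext ⟨s, y⟩
      constructor
      · rintro ⟨hs, hyS, hyW⟩
        exact ⟨(s, ⟨y, hyS⟩), ⟨hs, hin y hyS hyW⟩, rfl⟩
      · rintro ⟨⟨s', y'⟩, ⟨hs, hy⟩, heq⟩
        simp only [Prod.mk.injEq] at heq
        obtain ⟨rfl, rfl⟩ := heq
        exact ⟨hs, y'.2, hout y'.1 y'.2 hy⟩
    rw [hset]
    rintro _ ⟨⟨s, y⟩, hsy, rfl⟩
    show Filter.Tendsto _ (𝓝[_] _) (𝓝 _)
    have hmap : 𝓝[(fun p : ℝ × ↥S => ((p.1, p.2.1) : ℝ × X)) '' (Icc 0 ε ×ˢ N)] ((s, y.1) : ℝ × X) =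
        Filter.map (fun p : ℝ × ↥S => ((p.1, p.2.1) : ℝ × X)) (𝓝[Icc 0 ε ×ˢ N] (s, y)) :=
      (hemb.map_nhdsWithin_eq (Icc 0 ε ×ˢ N) (s, y)).symm
    rw [hmap, Filter.tendsto_map'_iff]
    have h1 : ContinuousWithinAt (fun p : ℝ × ↥S => (Φ p.1 p.2).1) (Icc 0 ε ×ˢ N) (s, y) :=
      continuous_subtype_val.continuousAt.comp_continuousWithinAt (h.cont (s, y) hsy)
    have h2 : ((fun p : ℝ × X => Ψ p.1 p.2) ∘ fun p : ℝ × ↥S => ((p.1, p.2.1) : ℝ × X)) =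
        fun p : ℝ × ↥S => (Φ p.1 p.2).1 := by
      funext p
      exact hΨS p.1 p.2.1 p.2.2
    rw [h2]
    have h3 : Ψ s y.1 = (Φ s y).1 := hΨS s y.1 y.2
    simp only [h3]
    exact h1
  · intro y hy s _
    rw [hΨS s y hy.1]
    exact (Φ s ⟨y, hy.1⟩).2
  · intro y hy
    rw [hΨS 0 y hy.1, h.zero _ (hin y hy.1 hy.2)]
  · intro y hy s s' hs hs' hss hmem
    rw [hΨS s' y hy.1] at hmem ⊢
    rw [hΨS _ y hy.1, hΨS s _ (Φ s' ⟨y, hy.1⟩).2,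
      h.add _ (hin y hy.1 hy.2) s s' hs hs' hss (hin _ (Φ s' ⟨y, hy.1⟩).2 hmem.2)]

/-- moved points of a closed set with a mapping cylinder neighbourhood -/
theorem mc_moved (hCOL : StCOL) (hMCC : StMCC) (X : Type) [TopologicalSpace X]
    [TopologicalSpace.MetrizableSpace X]
    [LocallyCompactSpace X] (hlc : LocContr X) (hm : IsHomology3Manifold X) (ho : LocallyOrientable X)
    (S : Set X) (hS : IsClosed S) (x : ↥S) (O : Set X) (L : Type) [TopologicalSpace L] (h : L × ℝ → X)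
    (hxO : x.1 ∈ O) (hMC : MC O S L h) (N : Set ↥S) (ε : ℝ) (Φ : ℝ → ↥S → ↥S) (hN : IsOpen N) (hx : x ∈ N)
    (hΦ : SF univ N ε Φ) (hne : ∃ s ∈ Icc (0 : ℝ) ε, Φ s x ≠ x) :
    ∃ U : Set X, IsOpen U ∧ x.1 ∈ U ∧ ∃ f : ↥U → EuclideanSpace ℝ (Fin 3), IsOpenEmbedding f := by
  obtain ⟨W, Ψ, hW, hxW, hΨ, hΨx⟩ := sf_of_sub S N ε Φ x hN hx hΦ
  obtain ⟨t, R, hR⟩ := hMCC X O S L h hS hMC
  obtain ⟨N', Θ, hN', hxN', hΘ, hΘx⟩ := hCOL X O S W t R ε Ψ x.1 hMC.oO hR hW hΨ hxO x.2 hxW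
  obtain ⟨s, hs, hsne⟩ := hne
  refine Pool.Agent.Helper58.SF.main_local X hlc hm ho x.1 N' ε Θ hN' hxN' hΘ.pos hΘ.cont hΘ.zero hΘ.add
    ⟨s, hs.1, hs.2, ?_⟩
  rw [hΘx s hs, hΨx s]
  intro heq
  exact hsne (Subtype.ext heq)

/-- points of a closed set with a mapping cylinder neighbourhood at which it is a CW complex -/
theorem mc_cw (hCOL : StCOL) (hMCC : StMCC) (X : Type) [TopologicalSpace X]
    [TopologicalSpace.MetrizableSpace X]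
    [LocallyCompactSpace X] (hlc : LocContr X) (hm : IsHomology3Manifold X) (ho : LocallyOrientable X)
    (S : Set X) (hS : IsClosed S) (x : ↥S) (O : Set X) (L : Type) [TopologicalSpace L] (h : L × ℝ → X)
    (hxO : x.1 ∈ O) (hMC : MC O S L h) (hni : ¬ IsOpen ({x} : Set ↥S))
    (Y : Type) [TopologicalSpace Y] [T2Space Y] [LocallyCompactSpace Y] (D : Set Y)
    [RelCWComplex (univ : Set Y) D] (U : Set ↥S) (hx : x ∈ U) (f : ↥U → Y) (hU : IsOpen U)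
    (hf : IsOpenEmbedding f) (hD : f ⟨x, hx⟩ ∉ D) :
    ∃ U : Set X, IsOpen U ∧ x.1 ∈ U ∧ ∃ f : ↥U → EuclideanSpace ℝ (Fin 3), IsOpenEmbedding f := by
  have hniY : ¬ IsOpen ({f ⟨x, hx⟩} : Set Y) := by
    intro ho
    have h1 : IsOpen (f ⁻¹' {f ⟨x, hx⟩}) := ho.preimage hf.continuous
    have h2 : f ⁻¹' {f ⟨x, hx⟩} = {⟨x, hx⟩} := by
      ext y
      simp only [mem_preimage, mem_singleton_iff]
      exact hf.injective.eq_iff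
    rw [h2] at h1
    have h3 : IsOpen ((Subtype.val : ↥U → ↥S) '' {⟨x, hx⟩}) := hU.isOpenMap_subtype_val _ h1
    rw [image_singleton] at h3
    exact hni h3
  obtain ⟨W, ε, Φ, hW, hyW, hSF, hne⟩ := aMOV Y D (f ⟨x, hx⟩) hD hniY
  obtain ⟨N, δ, Θ, hN, hxN, hSF', hne'⟩ := aTRA ↥S Y U f x hx W ε Φ hU hf hW hyW hSF hne
  exact mc_moved hCOL hMCC X hlc hm ho S hS x O L h hxO hMC N δ Θ hN hxN hSF'
    ⟨δ, ⟨hSF'.pos.le, le_refl _⟩, hne' δ ⟨hSF'.pos, le_refl _⟩⟩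

end Pool.Agent.Helper35.CWS
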