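import Pool.Agent.Helper35.CWS.Asm2

/-!
# Project CWS, part B: isolated points of `S`
-/

set_option autoImplicit false

namespace Pool.Agent.Helper35.CWS

open Set Topology Pool.Agent.Helper13.TR

/-- the punctured cone is a product -/
theorem cone_homeo {X : Type} [TopologicalSpace X] [T2Space X] [LocallyCompactSpace X] (O : Set X) (x : X)
    (L : Type) [TopologicalSpace L] (h : L × ℝ → X) (hMC : MC O {x} L h) :
    Nonempty (↥(O \ {x}) ≃ₜ L × ↥(Ioo (0 : ℝ) 1)) := by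
  have hO' : IsOpen (O \ {x}) := hMC.oO.sdiff isClosed_singleton
  have : LocallyCompactSpace ↥(O \ {x}) := hO'.locallyCompactSpace
  have hmem : ∀ l : L, ∀ r : ↥(Ioo (0 : ℝ) 1), h (l, r.1) ∈ O \ {x} := by
    intro l r
    have hr : r.1 ∈ Ico (0 : ℝ) 1 := ⟨r.2.1.le, r.2.2⟩
    refine ⟨hMC.hm l r.1 hr, fun hx => ?_⟩
    have := (hMC.hS l r.1 hr).mp hx
    exact r.2.1.ne' this
  set F : L × ↥(Ioo (0 : ℝ) 1) → ↥(O \ {x}) := fun p => ⟨h (p.1, p.2.1), hmem p.1 p.2⟩ with hF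
  have hFc : Continuous F := by
    refine Continuous.subtype_mk ?_ _
    have h1 : Continuous (fun p : L × ↥(Ioo (0 : ℝ) 1) => ((p.1, p.2.1) : L × ℝ)) := by fun_prop
    rw [← continuousOn_univ]
    refine hMC.hc.comp h1.continuousOn ?_
    intro p _
    exact ⟨mem_univ _, ⟨p.2.2.1.le, p.2.2.2⟩⟩
  have hFi : Function.Injective F := by
    rintro ⟨l, r⟩ ⟨l', r'⟩ heq
    have h1 : h (l, r.1) = h (l', r'.1) := congrArg Subtype.val heq
    obtain ⟨h2, h3⟩ := hMC.hi l l' r.1 r.2 r'.1 r'.2 h1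
    rw [h2, Subtype.ext h3]
  have hFs : Function.Surjective F := by
    rintro ⟨y, hy⟩
    obtain ⟨l, r, hr, hy'⟩ := hMC.hs y hy.1 hy.2
    exact ⟨(l, ⟨r, hr⟩), Subtype.ext hy'⟩
  have hprop : IsProperMap F := by
    rw [isProperMap_iff_isCompact_preimage]
    refine ⟨hFc, fun K hK => ?_⟩
    have hK' : IsCompact (Subtype.val '' K) := hK.image continuous_subtype_val
    have h1 := hMC.hp (Subtype.val '' K) (by rintro _ ⟨y, _, rfl⟩; exact y.2.1) hK'
    have hemb : IsEmbedding (fun p : L × ↥(Ioo (0 : ℝ) 1) => ((p.1, p.2.1) : L × ℝ)) :=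
      IsEmbedding.id.prodMap IsEmbedding.subtypeVal
    rw [hemb.isCompact_iff]
    have h2 : (fun p : L × ↥(Ioo (0 : ℝ) 1) => ((p.1, p.2.1) : L × ℝ)) '' (F ⁻¹' K) =
        {p : L × ℝ | p.2 ∈ Ico (0 : ℝ) 1 ∧ h p ∈ Subtype.val '' K} := by
      ext ⟨l, r⟩
      constructor
      · rintro ⟨⟨l', r'⟩, hk, heq⟩
        simp only [Prod.mk.injEq] at heq
        obtain ⟨rfl, rfl⟩ := heq
        exact ⟨⟨r'.2.1.le, r'.2.2⟩, ⟨_, hk, rfl⟩⟩
      · rintro ⟨hr, ⟨y, hyK, hy⟩⟩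
        have hr0 : r ≠ 0 := by
          intro h0
          have h3 := (hMC.hS l r hr).mpr h0
          rw [← hy] at h3
          exact y.2.2 h3
        have hr' : r ∈ Ioo (0 : ℝ) 1 := ⟨lt_of_le_of_ne hr.1 (Ne.symm hr0), hr.2⟩
        refine ⟨(l, ⟨r, hr'⟩), ?_, rfl⟩
        have : F (l, ⟨r, hr'⟩) = y := Subtype.ext hy.symm
        rw [mem_preimage, this]
        exact hyK
    rw [h2]
    exact h1
  exact ⟨((Equiv.ofBijective F ⟨hFi, hFs⟩).toHomeomorphOfContinuousClosed hFc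
    hprop.isClosedMap).symm⟩

/-- isolated points of a closed set with a mapping cylinder neighbourhood -/
theorem mc_isolated (hCRD : StCRD) (hCMV : StCMV) (hCMN : StCMN) (X : Type) [TopologicalSpace X]
    [TopologicalSpace.MetrizableSpace X]
    [LocallyCompactSpace X] (hlc : LocContr X) (hm : IsHomology3Manifold X) (ho : LocallyOrientable X)
    (S : Set X) (hS : IsClosed S) (x : ↥S) (O : Set X) (L : Type) [TopologicalSpace L] (h : L × ℝ → X)
    (hxO : x.1 ∈ O) (hMC : MC O S L h) (hi : IsOpen ({x} : Set ↥S)) :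
    ∃ U : Set X, IsOpen U ∧ x.1 ∈ U ∧ ∃ f : ↥U → EuclideanSpace ℝ (Fin 3), IsOpenEmbedding f := by
  have hM : HM X := hm_of hm ho
  obtain ⟨hL, hH⟩ := Pool.Agent.Helper13.TR.aLCP X hlc
  obtain ⟨V, hV, hVx⟩ := isOpen_induced_iff.mp hi
  have hSV : S ∩ V = {x.1} := by
    ext y
    constructor
    · rintro ⟨hyS, hyV⟩
      have : (⟨y, hyS⟩ : ↥S) ∈ (Subtype.val ⁻¹' V : Set ↥S) := hyV
      rw [hVx] at this
      exact congrArg Subtype.val this
    · rintro rfl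
      have : x ∈ (Subtype.val ⁻¹' V : Set ↥S) := by rw [hVx]; rfl
      exact ⟨x.2, this⟩
  obtain ⟨O', hxO', hcomp, hMC'⟩ := hCRD X O S V L h x.1 hS hMC hxO hV hSV
  set Lx : Set L := {l : L | h (l, 0) = x.1} with hLx
  set h' : ↥Lx × ℝ → X := fun p => h (p.1.1, p.2) with hh'
  have hT2 : T2Space ↥Lx := by
    have hr : (1 / 2 : ℝ) ∈ Ioo (0 : ℝ) 1 := ⟨by norm_num, by norm_num⟩
    refine T2Space.of_injective_continuous (f := fun l : ↥Lx => h' (l, 1 / 2)) ?_ ?_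
    · intro l l' heq
      exact (hMC'.hi l l' _ hr _ hr heq).1
    · have h1 : Continuous (fun l : ↥Lx => ((l, 1 / 2) : ↥Lx × ℝ)) := by fun_prop
      rw [← continuousOn_univ]
      exact hMC'.hc.comp h1.continuousOn fun l _ => ⟨mem_univ _, ⟨by norm_num, by norm_num⟩⟩
  have hne : Nonempty ↥Lx := by
    by_contra hempty
    have h1 : O' = {x.1} := by
      ext y
      constructor
      · intro hy
        by_contra hyx
        obtain ⟨l, _⟩ := hMC'.hs y hy hyx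
        exact hempty ⟨l⟩
      · rintro rfl
        exact hxO'
    have h2 : IsOpen ({x.1} : Set X) := by rw [← h1]; exact hMC'.oO
    exact not_isolated x.1 ((hm x.1).1 0 (by norm_num)) h2
  obtain ⟨l⟩ := hne
  obtain ⟨e⟩ := cone_homeo O' x.1 ↥Lx h' hMC'
  obtain ⟨d, _, hdc, hdi, hdo⟩ := hCMN X hM hH ↥Lx (O' \ {x.1}) e (hMC'.oO.sdiff isClosed_singleton) l
  obtain ⟨W, ε, Φ, hW, hxW, hΦ, hmv⟩ := hCMV X O' x.1 ↥Lx h' d hxO' hMC' hdc hdi hdo
  exact Pool.Agent.Helper58.SF.main_local X hlc hm ho x.1 W ε Φ hW hxW hΦ.pos hΦ.cont hΦ.zero hΦ.add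
    ⟨ε, hΦ.pos.le, le_refl _, hmv ε ⟨hΦ.pos, le_refl _⟩⟩

end Pool.Agent.Helper35.CWS
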