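import Pool.Agent.Helper35.CWS.StA

/-!
# Project CWS, INI: translations in a chart
-/

set_option autoImplicit false

namespace Pool.Agent.Helper35.CWS

open Set Topology Metric

theorem hINI : StINI := by
  intro Y _ _ m A W E K B v ε hε hK hE hinj hEA hBK hW hv hBv
  have hleft : ∀ w ∈ K, Function.invFunOn E K (E w) = w := fun w hw =>
    hinj.leftInvOn_invFunOn hw
  have hσ : ContinuousOn (Function.invFunOn E K) (E '' K) := by
    rw [continuousOn_iff_isClosed]
    intro C hC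
    refine ⟨E '' (K ∩ C), ((hK.inter_right hC).image_of_continuousOn (hE.mono inter_subset_left)).isClosed, ?_⟩
    ext y
    constructor
    · rintro ⟨h1, ⟨w, hw, rfl⟩⟩
      rw [mem_preimage, hleft w hw] at h1
      exact ⟨⟨w, ⟨hw, h1⟩, rfl⟩, ⟨w, hw, rfl⟩⟩
    · rintro ⟨⟨w, ⟨hw, hwC⟩, rfl⟩, h2⟩
      refine ⟨?_, h2⟩
      rw [mem_preimage, hleft w hw]
      exact hwC
  refine ⟨fun s y => E (Function.invFunOn E K y + s • v), ⟨inter_subset_left, hε, ?_, ?_, ?_, ?_⟩, ?_⟩
  · have h1 : ContinuousOn (fun p : ℝ × Y => Function.invFunOn E K p.2 + p.1 • v) (Icc 0 ε ×ˢ (A ∩ W)) := by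
      refine ContinuousOn.add ?_ ?_
      · refine hσ.comp continuousOn_snd ?_
        rintro ⟨s, y⟩ ⟨_, hy⟩
        obtain ⟨w, hw, rfl⟩ := hW hy
        exact ⟨w, hBK hw, rfl⟩
      · exact (continuousOn_fst).smul continuousOn_const
    refine hE.comp h1 ?_
    rintro ⟨s, y⟩ ⟨hs, hy⟩
    obtain ⟨w, hw, hwy⟩ := hW hy
    simp only at hs hwy ⊢
    rw [← hwy, hleft w (hBK hw)]
    exact hBv w hw s hs
  · intro y hy s hs
    obtain ⟨w, hw, rfl⟩ := hW hy
    refine hEA ⟨_, ?_, rfl⟩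
    rw [hleft w (hBK hw)]
    exact hBv w hw s hs
  · intro y hy
    obtain ⟨w, hw, rfl⟩ := hW hy
    simp only [zero_smul, add_zero]
    rw [hleft w (hBK hw)]
  · intro y hy s s' hs hs' hss h
    obtain ⟨w, hw, rfl⟩ := hW hy
    show E (Function.invFunOn E K (E w) + (s + s') • v) =
      E (Function.invFunOn E K (E (Function.invFunOn E K (E w) + s' • v)) + s • v)
    rw [hleft w (hBK hw)]
    have h2 : w + s' • v ∈ K := hBv w hw s' ⟨hs', by linarith⟩
    rw [hleft _ h2]
    congr 1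
    rw [add_smul]
    abel
  · intro y hy s hs
    obtain ⟨w, hw, rfl⟩ := hW hy
    show E (Function.invFunOn E K (E w) + s • v) ≠ E w
    rw [hleft w (hBK hw)]
    intro h
    have h2 : w + s • v ∈ K := hBv w hw s ⟨hs.1.le, hs.2⟩
    have h3 := hinj h2 (hBK hw) h
    have h4 : s • v = 0 := by simpa using h3
    rcases smul_eq_zero.mp h4 with h5 | h5
    · exact hs.1.ne' h5
    · exact hv h5

end Pool.Agent.Helper35.CWS
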