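import Pool.Agent.Helper35.CWS.Asm
import Pool.Agent.Helper85.CWS.M_EXC
import Pool.Agent.Helper36.CWS.M_QUO
import Pool.Agent.Helper1.CWS.M_CHA
import Pool.Agent.Helper3.CWS.M_CHB
import Pool.Agent.Helper17.CWS.M_CHC
import Pool.Agent.Helper92.CWS.M_STAR
import Pool.Agent.Helper56.CWS.M_IND
import Pool.Agent.Helper51.CWS.M_MOV
import Pool.Agent.Helper80.CWS.M_EXT
import Pool.Agent.Helper35.CWS.M_INI
import Pool.Agent.Helper89.CWS.M_TRA

/-!
# Project CWS: the final theorem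
-/

set_option autoImplicit false

namespace Pool.Agent.Helper35.CWS

open Set Topology Pool.Agent.Helper13.TR

theorem aEXT : StEXT := Pool.Agent.Helper80.CWS.hEXT Pool.Agent.Helper85.CWS.hEXC Pool.Agent.Helper36.CWS.hQUO
theorem aINI : StINI := hINI
theorem aMOV : StMOV := Pool.Agent.Helper51.CWS.hMOV Pool.Agent.Helper92.CWS.hSTAR
  (Pool.Agent.Helper56.CWS.hIND aEXT) (Pool.Agent.Helper1.CWS.hCHA aINI) (Pool.Agent.Helper3.CWS.hCHB aINI)
  (Pool.Agent.Helper17.CWS.hCHC aINI)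
theorem aTRA : StTRA := Pool.Agent.Helper89.CWS.hTRA

/-- a point with a CW neighbourhood has a Euclidean neighbourhood -/
theorem main_local (X : Type) [TopologicalSpace X] [TopologicalSpace.MetrizableSpace X]
    [LocallyCompactSpace X] (hlc : LocContr X) (hm : IsHomology3Manifold X) (ho : LocallyOrientable X)
    (x : X) (Y : Type) [TopologicalSpace Y] [T2Space Y] [LocallyCompactSpace Y] (D : Set Y)
    [RelCWComplex (univ : Set Y) D] (U : Set X) (hx : x ∈ U) (f : ↥U → Y) (hU : IsOpen U)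
    (hf : IsOpenEmbedding f) (hD : f ⟨x, hx⟩ ∉ D) :
    ∃ U : Set X, IsOpen U ∧ x ∈ U ∧ ∃ f : ↥U → EuclideanSpace ℝ (Fin 3), IsOpenEmbedding f :=
  asm_local aMOV aTRA X hlc hm ho x Y D U hx f hU hf hD

end Pool.Agent.Helper35.CWS
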