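import Pool.Agent.Helper35.CWS.Asm3
import Pool.Agent.Helper66.CWS.M_COL
import Pool.Agent.Helper40.CWS.M_MCC
import Pool.Agent.Helper99.CWS.M_CRD
import Pool.Agent.Helper40.CWS.M_CMV
import Pool.Agent.Helper36.CWS.M_CMN

/-!
# Project CWS, part B: the final theorem
-/

set_option autoImplicit false

namespace Pool.Agent.Helper35.CWS

open Set Topology Pool.Agent.Helper13.TR

theorem aCOL : StCOL := Pool.Agent.Helper66.CWS.hCOL
theorem aMCC : StMCC := Pool.Agent.Helper40.CWS.hMCC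
theorem aCRD : StCRD := Pool.Agent.Helper99.CWS.hCRD
theorem aCMV : StCMV := Pool.Agent.Helper40.CWS.hCMV Pool.Agent.Helper36.CWS.hQUO
theorem aCMN : StCMN := Pool.Agent.Helper36.CWS.hCMN

variable (X : Type) [TopologicalSpace X] [TopologicalSpace.MetrizableSpace X]
    [LocallyCompactSpace X] (hlc : LocContr X) (hm : IsHomology3Manifold X) (ho : LocallyOrientable X)
    (S : Set X) (hS : IsClosed S) (x : ↥S) (O : Set X) (L : Type) [TopologicalSpace L] (h : L × ℝ → X)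
    (hxO : x.1 ∈ O) (hMC : MC O S L h)

include hlc hm ho hS hxO hMC

/-- moved points -/
theorem main_moved (N : Set ↥S) (ε : ℝ) (Φ : ℝ → ↥S → ↥S) (hN : IsOpen N) (hx : x ∈ N)
    (hΦ : SF univ N ε Φ) (hne : ∃ s ∈ Icc (0 : ℝ) ε, Φ s x ≠ x) :
    ∃ U : Set X, IsOpen U ∧ x.1 ∈ U ∧ ∃ f : ↥U → EuclideanSpace ℝ (Fin 3), IsOpenEmbedding f :=
  mc_moved aCOL aMCC X hlc hm ho S hS x O L h hxO hMC N ε Φ hN hx hΦ hne

/-- isolated points -/
theorem main_isolated (hi : IsOpen ({x} : Set ↥S)) :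
    ∃ U : Set X, IsOpen U ∧ x.1 ∈ U ∧ ∃ f : ↥U → EuclideanSpace ℝ (Fin 3), IsOpenEmbedding f :=
  mc_isolated aCRD aCMV aCMN X hlc hm ho S hS x O L h hxO hMC hi

/-- CW points -/
theorem main_cw (Y : Type) [TopologicalSpace Y] [T2Space Y] [LocallyCompactSpace Y] (D : Set Y)
    [RelCWComplex (univ : Set Y) D] (U : Set ↥S) (hx : x ∈ U) (f : ↥U → Y) (hU : IsOpen U)
    (hf : IsOpenEmbedding f) (hD : f ⟨x, hx⟩ ∉ D) :
    ∃ U : Set X, IsOpen U ∧ x.1 ∈ U ∧ ∃ f : ↥U → EuclideanSpace ℝ (Fin 3), IsOpenEmbedding f := by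
  by_cases hi : IsOpen ({x} : Set ↥S)
  · exact main_isolated X hlc hm ho S hS x O L h hxO hMC hi
  · exact mc_cw aCOL aMCC X hlc hm ho S hS x O L h hxO hMC hi Y D U hx f hU hf hD

end Pool.Agent.Helper35.CWS
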