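import Pool.Agent.Helper35.CWS.StA

/-!
# Project CWS, part B (MP_a45945_gt): mapping cylinder neighbourhoods.  Definitions and statements.
-/

set_option autoImplicit false

namespace Pool.Agent.Helper35.CWS

open Set Topology Metric

/-- `O` collapses to `S ∩ O` in finite time: the point `y` reaches `S` at the time `t y`, `R s y` is its position at the time `s ≤ t y`. -/
structure Coll {X : Type} [TopologicalSpace X] (O S : Set X) (t : X → ℝ) (R : ℝ → X → X) : Prop where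
  tc : ContinuousOn t O
  t0 : ∀ y ∈ O, 0 ≤ t y
  tS : ∀ y ∈ O, (t y = 0 ↔ y ∈ S)
  Rc : ContinuousOn (fun p : ℝ × X => R p.1 p.2) {p | p.2 ∈ O ∧ 0 ≤ p.1 ∧ p.1 ≤ t p.2}
  Rm : ∀ y ∈ O, ∀ s : ℝ, 0 ≤ s → s ≤ t y → R s y ∈ O
  Rt : ∀ y ∈ O, ∀ s : ℝ, 0 ≤ s → s ≤ t y → t (R s y) = t y - s
  R0 : ∀ y ∈ O, R 0 y = y
  Ra : ∀ y ∈ O, ∀ s s' : ℝ, 0 ≤ s → 0 ≤ s' → s + s' ≤ t y → R (s + s') y = R s (R s' y)

/-- `h : L × [0, 1) → O` exhibits the open set `O` as the open mapping cylinder of the proper map `h (·, 0)` of `L` to the closed subset `S ∩ O` of `O`. -/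
structure MC {X : Type} [TopologicalSpace X] (O S : Set X) (L : Type) [TopologicalSpace L] (h : L × ℝ → X) : Prop where
  oO : IsOpen O
  hc : ContinuousOn h (univ ×ˢ Ico (0 : ℝ) 1)
  hm : ∀ l : L, ∀ r ∈ Ico (0 : ℝ) 1, h (l, r) ∈ O
  hS : ∀ l : L, ∀ r ∈ Ico (0 : ℝ) 1, (h (l, r) ∈ S ↔ r = 0)
  hi : ∀ l l' : L, ∀ r ∈ Ioo (0 : ℝ) 1, ∀ r' ∈ Ioo (0 : ℝ) 1, h (l, r) = h (l', r') → l = l' ∧ r = r'
  hs : ∀ y ∈ O, y ∉ S → ∃ l : L, ∃ r ∈ Ioo (0 : ℝ) 1, h (l, r) = y
  hp : ∀ K ⊆ O, IsCompact K → IsCompact {p : L × ℝ | p.2 ∈ Ico (0 : ℝ) 1 ∧ h p ∈ K}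

/-- COL.  Extension of a local semiflow of `S` by a collapse to `S`.
PROOF.  For `y ∈ O` the point `q y := R (t y) y` is in `O` with `t (q y) = 0`, so in `S`; `q` is continuous on `O`.  `N := {y ∈ O | q y ∈ W}` is open; `x ∈ N` since `t x = 0`, `q x = x`.
`Φ s y := if s ≤ t y then R s y else Ψ (s - t y) (q y)`.  Continuity on `Icc 0 ε ×ˢ N`: two relatively closed pieces `s ≤ t y`, `s ≥ t y`; on the second the formula `Ψ (s - t y) (q y)` is continuous
(`(s - t y, q y) ∈ Icc 0 ε ×ˢ (S ∩ W)`), both agree for `s = t y` (`Ψ 0 = id`).  `zero`: `R 0 y = y`.  `add`: `y ∈ N`, `y' := Φ s' y ∈ N`.  If `s' ≤ t y`: `y' = R s' y`, `t y' = t y - s'`, `q y' = R (t y - s') (R s' y) = q y`, and the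
law follows in the two cases `s + s' ≤ t y`, `s + s' > t y` (then `s > t y'` and `s - t y' = s + s' - t y`).  If `s' > t y`: `y' = Ψ (s' - t y) (q y) ∈ S` (`mem`), `y' ∈ N ⊆ O`, so `t y' = 0`, `q y' = R 0 y' = y' ∈ W`; so
`Φ s y' = Ψ s y'` (for `s = 0`: `R 0 y' = y' = Ψ 0 y'`), equal to `Ψ (s + (s' - t y)) (q y)` by `add` of `Ψ`, which is `Φ (s + s') y`.  `Φ s x = Ψ s x`: `t x = 0`, `q x = x`. -/
def StCOL : Prop := ∀ (X : Type) [TopologicalSpace X] (O S W : Set X) (t : X → ℝ) (R : ℝ → X → X) (ε : ℝ) (Ψ : ℝ → X → X) (x : X),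
  IsOpen O → Coll O S t R → IsOpen W → SF S (S ∩ W) ε Ψ → x ∈ O → x ∈ S → x ∈ W →
  ∃ (N : Set X) (Φ : ℝ → X → X), IsOpen N ∧ x ∈ N ∧ SF univ N ε Φ ∧ ∀ s ∈ Icc (0 : ℝ) ε, Φ s x = Ψ s x

/-- MCC.  A mapping cylinder neighbourhood collapses.
PROOF.  For `y ∈ O ∖ S` let `(l y, r y)` be the unique pair with `h (l, r) = y`, `0 < r < 1`.  `t y := 0` for `y ∈ S`, `t y := r y` otherwise; `R s y := y` for `y ∈ S`, `R s y := h (l y, r y - s)` otherwise.
The algebraic properties are clear (`h (l, 0) ∈ S`, `t (h (l, r)) = r` for all `r ∈ [0, 1)`, `R s (h (l, r)) = h (l, r - s)` for `0 ≤ s ≤ r < 1`, also for `r = 0`).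
Continuity at a point `y ∈ O` (for `R` at `(s, y)`, `0 ≤ s ≤ t y`): let `K ⊆ O` be a compact neighbourhood of `y`, `G := {p | p.2 ∈ Ico 0 1 ∧ h p ∈ K}`, compact by `hp`.  Ultrafilters: let `𝒰` be an ultrafilter on the domain converging to the point.  Either the
set `{y' ∈ S}` is in `𝒰`: then `y ∈ S` (closed), `t = 0` and `R s' y' = y'` on it, and `s' = 0`, `s = 0`: fine.  Or `{y' ∉ S} ∈ 𝒰`: `y' = h (l', r')` with `(l', r') ∈ G`; by compactness `(l', r')` converges to some `(l₁, r₁) ∈ G` along `𝒰`, `h (l₁, r₁) = y` by continuity of `h`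
on `univ ×ˢ Ico 0 1` (and `T2`); so `t y = r₁` and `t y' = r' → r₁`, and `R s' y' = h (l', r' - s') → h (l₁, r₁ - s) = R s y`. -/
def StMCC : Prop := ∀ (X : Type) [TopologicalSpace X] [T2Space X] [LocallyCompactSpace X] (O S : Set X) (L : Type) [TopologicalSpace L] (h : L × ℝ → X),
  IsClosed S → MC O S L h → ∃ (t : X → ℝ) (R : ℝ → X → X), Coll O S t R

/-- CRD.  Reduction to the cone at an isolated point `x` of `S`.
PROOF.  `Lx := {l | h (l, 0) = x}`: compact (`hp` for `K = {x}`: the set there is `Lx × {0}`; project) and open in `L`: it is the set of the `l` with `h (l, 0) ∈ V`, since `h (l, 0) ∈ S`.  `O' := {x} ∪ {h (l, r) | l ∈ Lx, 0 ≤ r < 1}`.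
`O'` is open: `O ∖ O' = (O ∩ (S ∖ V)) ∪ h '' (Lxᶜ × [0, 1))`, and both are relatively closed in `O`; the second: a compact neighbourhood `K ⊆ O` of a point of `O` meets it in `h` of the compact set `{p | p.2 ∈ Ico 0 1 ∧ h p ∈ K} ∩ (Lxᶜ × ℝ)`, which is compact, so closed.
The other properties of `MC O' {x}` are inherited: `hs`: `y ∈ O'`, `y ≠ x` is `h (l, r)` with `l ∈ Lx`, `r > 0` (`r = 0` gives `x`); `hS`: `h (l, r) = x ∈ S` iff `r = 0`; `hp`: closed subset of the compact set of `MC O S` (`Lx` is closed), preimage under the embedding `Lx × ℝ → L × ℝ`. -/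
def StCRD : Prop := ∀ (X : Type) [TopologicalSpace X] [T2Space X] [LocallyCompactSpace X] (O S V : Set X) (L : Type) [TopologicalSpace L] (h : L × ℝ → X) (x : X),
  IsClosed S → MC O S L h → x ∈ O → IsOpen V → S ∩ V = {x} →
  ∃ O' : Set X, x ∈ O' ∧ CompactSpace ↥{l : L | h (l, 0) = x} ∧ MC O' {x} ↥{l : L | h (l, 0) = x} (fun p => h (p.1.1, p.2))

/-- CMV.  The vertex of an open cone over a compact space containing an open disc is moved by a local semiflow.  Uses `StQUO`.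
PROOF.  `h` is the cone coordinate; `h (l, 0) = x` for all `l`.  `W := O ∖ h '' (univ ×ˢ Ico (1/2) 1)`: it is open (the set is relatively closed in `O` as in `StCRD`), `W = {x} ∪ {h (l, r) | 0 < r < 1/2}`; `ε := 1/4`, all points `h (l, r)` used below have `r ≤ 3/4`.
`D := d '' closedBall 0 1` (compact), `D₀ := d '' ball 0 1` (open).  For `w ∈ closedBall 0 1`, `0 ≤ r < 1/2`, `0 ≤ s ≤ 1/4` put `z := r * exp (i π ‖w‖) + s` (in the closed upper half plane), and
`G₁ (s, w, r) := h (d ((arg z / (π * ‖w‖)) • w), ‖z‖)` (for `w = 0`: `h (d 0, ‖z‖)`, as `0 • w`).  [The cone over the disc is a half plane times the circle, with the ray over `d 0` as the positive axis and the rays over the boundary circle as the negative axis; the flow is the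
translation.]  `arg z ∈ [0, π]`, so the point is in the closed disc.  For `‖w‖ = 1`: `z = s - r`; if `s < r` then `arg z = π` and `G₁ = h (d w, r - s)`, if `s ≥ r` then `arg z = 0` and `G₁ = h (d 0, s - r)`.  For `l ∉ D₀` put `G₂ (s, l, r) := h (l, r - s)` if `s ≤ r`, `h (d 0, s - r)` if `s ≥ r`; so
`G₁ (s, w, r) = G₂ (s, d w, r)` for `‖w‖ = 1`.  `Φ s (h (l, r)) := G₁ (s, w, r)` if `l = d w`, `‖w‖ < 1`, `r > 0`; `G₂ (s, l, r)` if `l ∉ D₀`, `r > 0`; `Φ s x := h (d 0, s)` (all formulas give this for `r = 0`).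
Continuity of `G₁` on `[0, 1/4] × closedBall × [0, 1/2)`: at points with `z ≠ 0`: `arg` is continuous within the closed upper half plane off `0` (`Complex.continuousAt_arg`, `Complex.continuousWithinAt_arg_of_re_neg_of_im_zero`), and `w' := (arg z / (π ‖w‖)) • w` has norm `arg z / π`, which tends to `0` when `w → 0` (then `z`
tends to a positive number), and is continuous in `w ≠ 0`.  At points with `z = 0`: `h (l', r') → x` when `r' → 0`, uniformly in `l'` (`L` compact: tube lemma for `h` at `L × {0}`).  `G₂` is continuous on `[0, 1/4] × D₀ᶜ × [0, 1/2)` (pasting).  `Φ` is continuous on `[0, 1/4] ×ˢ W`: `W` is the union of two relatively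
closed sets, the images of `D₀ᶜ × [0, 1/2)` and of `closedBall × [0, 1/2)`; use `StQUO` for each, with `K = D₀ᶜ × [0, 3/4]` etc. (compact), and paste.  `zero`: `s = 0`: `z = r exp (i π ‖w‖)`, `arg z = π ‖w‖` (for `r > 0`).  `add`: `G₁`: `y' = h (d w', r')` with `r' = ‖z'‖`, `π ‖w'‖ = arg z'`, so `r' exp (i π ‖w'‖) = z'`, and `w'` is a
nonnegative multiple of `w`; then `Φ s y'` is given by `z' + s = z`; if `w' = 0` then `z'` is `≥ 0`, so `arg (z' + s) = 0`, both sides are `h (d 0, z' + s)`; if `w' ≠ 0`, `(arg z / (π ‖w'‖)) • w' = (arg z / (π ‖w‖)) • w`.  `G₂`: clear.  `Φ s x = h (d 0, s) ≠ x` for `s > 0`. -/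
def StCMV : Prop := ∀ (X : Type) [TopologicalSpace X] [T2Space X] [LocallyCompactSpace X] (O : Set X) (x : X) (L : Type) [TopologicalSpace L] [CompactSpace L] [T2Space L] (h : L × ℝ → X) (d : ℂ → L),
  x ∈ O → MC O {x} L h → ContinuousOn d (closedBall 0 1) → InjOn d (closedBall 0 1) → IsOpen (d '' ball 0 1) →
  ∃ (W : Set X) (ε : ℝ) (Φ : ℝ → X → X), IsOpen W ∧ x ∈ W ∧ SF univ W ε Φ ∧ ∀ s ∈ Ioc (0 : ℝ) ε, Φ s x ≠ x

end Pool.Agent.Helper35.CWS
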